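import Pool.Agent.NNDT.Fin1
import Pool.Agent.NNDT.Fin2
import Pool.Agent.NNDT.Lit
import Pool.Agent.NegLim.Up3

/-!
# Nondeterministic circuits with few negations and many witness bits

The graphs on `v` vertices without an independent set of size `k` (a coNP-complete problem) are not
accepted by nondeterministic circuits of subexponential size if the NOT gates only depend on the
input and on `s` of the witness bits and
`2 ^ (s + number of the NOT gates) * (number of the other witness bits + 1) ≤ N ^ (1 - ε)`, where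
`N = v (v - 1) / 2` is the number of input variables. In particular monotone nondeterministic
circuits with `N ^ (1 - ε)` witness bits have exponential size. The first part of the theorem is the
same with explicit constants up to `N ^ (1 - o(1))`. The third and the fourth part are the other
side of the thresholds: if `s` plus the number of the NOT gates is at least `log2 (N + 1) + 1`, or if
there are `N` more witness bits, then the few NOT gates are no restriction.
-/

set_option autoImplicit false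

namespace Pool.Agent.Results.MP_a77cad_lc.NondetNearThreshold

open Pool.Agent.NegLim Pool.Agent.NNDT

theorem result :
    (∀ (v n k N s t : ℕ) (C : NCirc (Edge v) s t), 2 ^ 200 ≤ n → k = Nat.sqrt (Nat.sqrt n) →
      N = v * (v - 1) / 2 → C.NotsFree → (∀ x, C.Acc x ↔ nis v k x = true) →
      ((s + C.nots : ℕ) : ℝ) + Real.logb 2 ((t : ℝ) + 1) ≤
        Real.logb 2 N - 5 * (√(Real.logb 2 N) + Real.logb 2 n) →
      (2 : ℝ) ^ ((n : ℝ) ^ (1 / 8 : ℝ)) ≤ ((2 * (C.gates.length + 1) : ℕ) : ℝ)) ∧
    (∀ ε : ℝ, 0 < ε → ε ≤ 1 → ∃ v₀ : ℕ, ∀ v ≥ v₀, ∀ (k N s t : ℕ) (C : NCirc (Edge v) s t),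
      k = ⌊(v : ℝ) ^ (ε / 32)⌋₊ → N = v * (v - 1) / 2 → C.NotsFree →
      (∀ x, C.Acc x ↔ nis v k x = true) →
      ((2 ^ (s + C.nots) * (t + 1) : ℕ) : ℝ) ≤ (N : ℝ) ^ (1 - ε) →
      (2 : ℝ) ^ ((N : ℝ) ^ (ε / 200)) ≤ C.gates.length) ∧
    (∀ (E : Type) [Fintype E] (s t r : ℕ), 1 ≤ r → Fintype.card E + 1 ≤ 2 ^ (s + r - 1) →
      ∀ D : NCirc E 0 t, ∃ C : NCirc E s t, C.nots = r ∧ C.NotsFree ∧
        C.gates.length ≤ 2 * D.gates.length + 12 * (Fintype.card E + r) ^ 3 ∧
        ∀ x, C.Acc x ↔ D.Acc x) ∧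
    (∀ (E : Type) [Fintype E] (t : ℕ) (D : NCirc E 0 t), Lit D →
      (∀ x x' : E → Bool, (∀ e, x e = true → x' e = true) → D.Acc x → D.Acc x') →
      ∃ C : NCirc E 0 (t + Fintype.card E), Lit C ∧ C.nots = 0 ∧
        C.gates.length = 2 * D.gates.length + 2 * Fintype.card E ∧
        ∀ x, C.Acc x ↔ D.Acc x) := by
  refine ⟨fun v n k N s t C hn hk hN hfree hacc hsr =>
    uniform v n k N s t C hn hk hN hfree hacc hsr, fun ε hε hε1 => ?_,
    fun E _ s t r hr hN D => upper s t r hr hN D, fun E _ t D hD hmono => simulate D hD hmono⟩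
  obtain ⟨v₀, hv₀⟩ := exponential ε hε hε1
  exact ⟨v₀, fun v hv k N s t C hk hN hfree hacc hsr => hv₀ v hv k N hk hN s t C hfree hacc hsr⟩

end Pool.Agent.Results.MP_a77cad_lc.NondetNearThreshold
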